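import Mathlib

namespace Pool.Agent.H.MP_12cd8a_lc
open Set Filter Topology Ordinal

def Ls (a b : Ordinal.{0}) : Prop :=
  ∀ η : Ordinal.{0}, 1 ≤ η → η < Ordinal.omega 1 → b ≤ Ordinal.omega0 ^ η → a ≤ Ordinal.omega0 ^ η

def Ap (a b : Ordinal.{0}) : Prop := Ls a b ∧ Ls b a

def BB1 {X : Type} [TopologicalSpace X] (f : X → ℝ) : Prop :=
  (∃ M : ℝ, ∀ x, |f x| ≤ M) ∧ ∃ g : ℕ → X → ℝ, (∀ n, Continuous (g n)) ∧
    ∀ x, Tendsto (fun n => g n x) atTop (𝓝 (f x))

def Cs {X : Type} [TopologicalSpace X] (l : Ordinal.{0}) (F : Ordinal.{0} → Set X) : Prop :=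
  (∀ η, IsClosed (F η)) ∧ Antitone F ∧ F 0 = Set.univ ∧
    (∀ η, Order.IsSuccLimit η → F η = ⋂ θ < η, F θ) ∧ ∀ η, l ≤ η → F η = ∅

def Td {X : Type} (l : Ordinal.{0}) (F : Ordinal.{0} → Set X) : Set X :=
  ⋃ η < l, ⋃ (_ : 2 ∣ η), F η \ F (η + 1)

noncomputable def a1 {X : Type} [TopologicalSpace X] (B C : Set X) : Ordinal.{0} :=
  sInf {l | ∃ F : Ordinal.{0} → Set X, Cs l F ∧ B ⊆ Td l F ∧ Disjoint (Td l F) C}

noncomputable def al {X : Type} [TopologicalSpace X] (f : X → ℝ) : Ordinal.{0} :=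
  ⨆ r : {r : ℚ × ℚ // r.1 < r.2}, a1 {x | f x ≤ r.1.1} {x | (r.1.2 : ℝ) ≤ f x}

section top
variable {X : Type} [TopologicalSpace X]

open Classical in
noncomputable def G (B C : Set X) (η : Ordinal.{0}) : Set X :=
  Ordinal.limitRecOn η Set.univ (fun θ S => closure (S ∩ if 2 ∣ θ then C else B))
    (fun η _ ih => ⋂ θ, ⋂ h : θ < η, ih θ h)

lemma G0 (B C : Set X) : G B C 0 = Set.univ := by simp [G]

lemma Ge (B C : Set X) (η : Ordinal.{0}) (h : 2 ∣ η) : G B C (η + 1) = closure (G B C η ∩ C) := by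
  simp only [G, limitRecOn_add_one, if_pos h]

lemma Go (B C : Set X) (η : Ordinal.{0}) (h : ¬ 2 ∣ η) : G B C (η + 1) = closure (G B C η ∩ B) := by
  simp only [G, limitRecOn_add_one, if_neg h]

lemma Gl (B C : Set X) (η : Ordinal.{0}) (h : Order.IsSuccLimit η) :
    G B C η = ⋂ θ < η, G B C θ := by
  rw [G, limitRecOn_limit _ _ _ _ h]; rfl

lemma Gc (B C : Set X) (η : Ordinal.{0}) : IsClosed (G B C η) := by
  induction η using limitRecOn with
  | zero => rw [G0]; exact isClosed_univ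
  | add_one η _ =>
    by_cases h : 2 ∣ η
    · rw [Ge _ _ _ h]; exact isClosed_closure
    · rw [Go _ _ _ h]; exact isClosed_closure
  | limit η h ih => rw [Gl _ _ _ h]; exact isClosed_biInter ih

lemma Gs (B C : Set X) (η : Ordinal.{0}) : G B C (η + 1) ⊆ G B C η := by
  by_cases h : 2 ∣ η
  · rw [Ge _ _ _ h]; exact closure_minimal inter_subset_left (Gc _ _ _)
  · rw [Go _ _ _ h]; exact closure_minimal inter_subset_left (Gc _ _ _)

lemma Ga (B C : Set X) : Antitone (G B C) := by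
  intro a b hab
  induction b using limitRecOn with
  | zero => rw [nonpos_iff_eq_zero.1 hab]
  | add_one η ih =>
    rcases hab.lt_or_eq with h | rfl
    · exact (Gs _ _ _).trans (ih (Order.lt_add_one_iff.1 h))
    · exact le_rfl
  | limit η h _ =>
    rcases hab.lt_or_eq with h' | rfl
    · rw [Gl _ _ _ h]; exact biInter_subset_of_mem h'
    · exact le_rfl

lemma Gm {B C B' C' : Set X} (hB : B ⊆ B') (hC : C ⊆ C') (η : Ordinal.{0}) :
    G B C η ⊆ G B' C' η := by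
  induction η using limitRecOn with
  | zero => rw [G0, G0]
  | add_one η ih =>
    by_cases h : 2 ∣ η
    · rw [Ge _ _ _ h, Ge _ _ _ h]; exact closure_mono (inter_subset_inter ih hC)
    · rw [Go _ _ _ h, Go _ _ _ h]; exact closure_mono (inter_subset_inter ih hB)
  | limit η h ih => rw [Gl _ _ _ h, Gl _ _ _ h]; exact iInter₂_mono ih

lemma exit {l : Ordinal.{0}} {F : Ordinal.{0} → Set X} (h : Cs l F) (x : X) :
    ∃ θ < l, x ∈ F θ ∧ x ∉ F (θ + 1) := by
  obtain ⟨-, h2, h3, h4, h5⟩ := h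
  have key : ∀ η, x ∉ F η → ∃ θ < η, x ∈ F θ ∧ x ∉ F (θ + 1) := by
    intro η
    induction η using limitRecOn with
    | zero => intro hx; exact absurd (h3 ▸ mem_univ x) hx
    | add_one η ih =>
      intro hx
      by_cases hy : x ∈ F η
      · exact ⟨η, Order.lt_add_one_iff.2 le_rfl, hy, hx⟩
      · obtain ⟨θ, a, b⟩ := ih hy
        exact ⟨θ, Order.lt_add_one_iff.2 a.le, b⟩
    | limit η h ih =>
      intro hx
      rw [h4 η h] at hx
      simp only [mem_iInter, not_forall] at hx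
      obtain ⟨θ, a, b⟩ := hx
      obtain ⟨θ', c, d⟩ := ih θ a b
      exact ⟨θ', c.trans a, d⟩
  exact key l (by rw [h5 l le_rfl]; exact notMem_empty x)

lemma uniq {F : Ordinal.{0} → Set X} (h : Antitone F) {x : X} {a b : Ordinal.{0}}
    (ha : x ∈ F a) (ha' : x ∉ F (a + 1)) (hb : x ∈ F b) (hb' : x ∉ F (b + 1)) : a = b := by
  rcases lt_trichotomy a b with c | c | c
  · exact absurd (h (Order.add_one_le_iff.2 c) hb) ha'
  · exact c
  · exact absurd (h (Order.add_one_le_iff.2 c) ha) hb'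

lemma mem_Td {l : Ordinal.{0}} {F : Ordinal.{0} → Set X} {x : X} :
    x ∈ Td l F ↔ ∃ θ < l, 2 ∣ θ ∧ x ∈ F θ ∧ x ∉ F (θ + 1) := by
  simp only [Td, mem_iUnion, mem_diff, exists_prop]

lemma GCs {B C : Set X} {l : Ordinal.{0}} (h : G B C l = ∅) :
    Cs l (G B C) ∧ B ⊆ Td l (G B C) ∧ Disjoint (Td l (G B C)) C := by
  have h1 : Cs l (G B C) := ⟨Gc B C, Ga B C, G0 B C, Gl B C, fun η hη =>
    subset_eq_empty (Ga B C hη) h⟩
  refine ⟨h1, fun x hx => ?_, disjoint_left.2 fun x hx hC => ?_⟩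
  · obtain ⟨θ, a, b, c⟩ := exit h1 x
    refine mem_Td.2 ⟨θ, a, ?_, b, c⟩
    by_contra h2
    rw [Go _ _ _ h2] at c
    exact c (subset_closure ⟨b, hx⟩)
  · obtain ⟨θ, -, b, c, d⟩ := mem_Td.1 hx
    rw [Ge _ _ _ b] at d
    exact d (subset_closure ⟨c, hC⟩)

lemma GF {B C : Set X} {l : Ordinal.{0}} {F : Ordinal.{0} → Set X} (h : Cs l F)
    (hB : B ⊆ Td l F) (hC : Disjoint (Td l F) C) (η : Ordinal.{0}) : G B C η ⊆ F η := by
  induction η using limitRecOn with
  | zero => rw [h.2.2.1]; exact subset_univ _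
  | add_one η ih =>
    by_cases h2 : 2 ∣ η
    · rw [Ge _ _ _ h2]
      refine closure_minimal (fun x hx => ?_) (h.1 _)
      by_contra h3
      have h4 : η < l := by
        by_contra h5
        have := ih hx.1
        rw [h.2.2.2.2 η (not_lt.1 h5)] at this
        exact this
      exact disjoint_left.1 hC (mem_Td.2 ⟨η, h4, h2, ih hx.1, h3⟩) hx.2
    · rw [Go _ _ _ h2]
      refine closure_minimal (fun x hx => ?_) (h.1 _)
      by_contra h3
      obtain ⟨θ, -, b, c, d⟩ := mem_Td.1 (hB hx.2)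
      exact h2 (uniq h.2.1 c d (ih hx.1) h3 ▸ b)
  | limit η h2 ih => rw [Gl _ _ _ h2, h.2.2.2.1 η h2]; exact iInter₂_mono ih

lemma a1_le {B C : Set X} {l : Ordinal.{0}} (h : G B C l = ∅) : a1 B C ≤ l :=
  csInf_le' ⟨_, GCs h⟩

lemma odd (η : Ordinal.{0}) : ¬ 2 ∣ 2 * η + 1 := by
  rw [Ordinal.dvd_iff_mod_eq_zero, Ordinal.mul_add_mod_self, Ordinal.mod_eq_of_lt one_lt_two]
  exact one_ne_zero

lemma Gne [PolishSpace X] {B C : Set X} (hB : IsGδ B) (hC : IsGδ C) (hd : Disjoint B C) :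
    ∃ l, G B C l = ∅ := by
  have h1 : ∃ η, G B C (2 * η) ⊆ G B C (2 * (η + 1)) := by
    by_contra hcon
    push Not at hcon
    refine not_injective_of_ordinal (fun η => G B C (2 * η)) (StrictAnti.injective fun a b hab => ?_)
    refine lt_of_le_of_lt (Ga B C (by gcongr; exact Order.add_one_le_iff.2 hab) :
      G B C (2 * b) ≤ G B C (2 * (a + 1))) ?_
    exact lt_of_le_not_ge (Ga B C (by gcongr; exact le_self_add)) (hcon a)
  obtain ⟨η, hη⟩ := h1
  have e : 2 * (η + 1) = 2 * η + 1 + 1 := by rw [mul_add_one, add_assoc, one_add_one_eq_two]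
  rw [e] at hη
  refine ⟨2 * η, ?_⟩
  have h2 := hη.trans (Gs _ _ _)
  rw [Go _ _ _ (odd η)] at hη
  have h3 := hη.trans (closure_mono (inter_subset_inter_left _ (Gs _ _ _)))
  rw [Ge _ _ _ (dvd_mul_right _ _)] at h2
  have hc := Gc B C (2 * η)
  generalize G B C (2 * η) = F at h2 h3 hc
  haveI := hc.polishSpace
  by_contra hne
  haveI : Nonempty F := (nonempty_iff_ne_empty.2 hne).to_subtype
  have d1 : Dense ((↑) ⁻¹' B : Set F) := by
    rw [Subtype.dense_iff, Subtype.image_preimage_coe]; exact h3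
  have d2 : Dense ((↑) ⁻¹' C : Set F) := by
    rw [Subtype.dense_iff, Subtype.image_preimage_coe]; exact h2
  obtain ⟨x, hx⟩ := (Dense.inter_of_Gδ (hB.preimage continuous_subtype_val)
    (hC.preimage continuous_subtype_val) d1 d2).nonempty
  exact disjoint_left.1 hd hx.1 hx.2

lemma le_a1 [PolishSpace X] {B C : Set X} (hB : IsGδ B) (hC : IsGδ C) (hd : Disjoint B C)
    {l : Ordinal.{0}} (h : a1 B C ≤ l) : G B C l = ∅ := by
  obtain ⟨m, hm⟩ := Gne hB hC hd
  obtain ⟨F, h1, h2, h3⟩ := csInf_mem (s := {l | ∃ F : Ordinal.{0} → Set X, Cs l F ∧ B ⊆ Td l F ∧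
    Disjoint (Td l F) C}) ⟨m, _, GCs hm⟩
  exact subset_eq_empty (GF h1 h2 h3 l) (h1.2.2.2.2 l h)

lemma cnt {l : Ordinal.{0}} (h : l < Ordinal.omega 1) : (Iio l).Countable := by
  rw [← Cardinal.le_aleph0_iff_set_countable, Cardinal.mk_Iio_ordinal, Cardinal.lift_le_aleph0]
  rw [Cardinal.lt_omega_iff_card_lt] at h
  rw [← Cardinal.succ_aleph0] at h
  exact Order.lt_succ_iff.1 h

lemma Td_gd [PolishSpace X] {l : Ordinal.{0}} {F : Ordinal.{0} → Set X} (h : Cs l F)
    (hl : l < Ordinal.omega 1) : IsGδ (Td l F) ∧ IsGδ (Td l F)ᶜ := by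
  have g : ∀ θ, IsGδ ((F θ)ᶜ ∪ F (θ + 1)) := fun θ =>
    (h.1 θ).isOpen_compl.isGδ.union (h.1 _).isGδ
  constructor
  · have : Td l F = ⋂ θ ∈ {θ ∈ Iio l | ¬ 2 ∣ θ}, ((F θ)ᶜ ∪ F (θ + 1)) := by
      ext x
      rw [mem_Td]
      simp only [mem_iInter, mem_union, mem_compl_iff]
      constructor
      · rintro ⟨θ, -, b, c, d⟩ η hη
        by_contra h3
        push Not at h3
        exact hη.2 (uniq h.2.1 c d h3.1 h3.2 ▸ b)
      · intro h3
        obtain ⟨θ, a, b, c⟩ := exit h x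
        refine ⟨θ, a, ?_, b, c⟩
        by_contra h4
        rcases h3 θ ⟨a, h4⟩ with h5 | h5
        exacts [h5 b, c h5]
    rw [this]
    exact IsGδ.biInter ((cnt hl).mono (sep_subset _ _)) fun θ _ => g θ
  · have : (Td l F)ᶜ = ⋂ θ ∈ {θ ∈ Iio l | 2 ∣ θ}, ((F θ)ᶜ ∪ F (θ + 1)) := by
      ext x
      rw [mem_compl_iff, mem_Td]
      simp only [mem_iInter, mem_union, mem_compl_iff]
      constructor
      · intro h3 η hη
        by_contra h4
        push Not at h4
        exact h3 ⟨η, hη.1, hη.2, h4⟩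
      · rintro h3 ⟨θ, a, b, c, d⟩
        rcases h3 θ ⟨a, b⟩ with h5 | h5
        exacts [h5 c, d h5]
    rw [this]
    exact IsGδ.biInter ((cnt hl).mono (sep_subset _ _)) fun θ _ => g θ

lemma gd_le {f : X → ℝ} (hf : BB1 f) (p : ℝ) : IsGδ {x | f x ≤ p} := by
  obtain ⟨-, g, h1, h2⟩ := hf
  have : {x | f x ≤ p} = ⋂ k : ℕ, ⋂ N : ℕ, ⋃ n ≥ N, {x | g n x < p + 1 / ((k : ℝ) + 1)} := by
    ext x
    simp only [mem_iInter, mem_iUnion, Set.mem_ofPred_eq, exists_prop]
    constructor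
    · intro hx k N
      have h3 : f x < p + 1 / ((k : ℝ) + 1) := by
        have : 0 < 1 / ((k : ℝ) + 1) := by positivity
        linarith
      exact ((eventually_ge_atTop N).and ((h2 x).eventually (gt_mem_nhds h3))).exists
    · intro hx
      refine le_of_forall_pos_le_add fun ε hε => ?_
      obtain ⟨k, hk⟩ := exists_nat_one_div_lt hε
      have := le_of_tendsto_of_frequently (h2 x) (b := p + 1 / ((k : ℝ) + 1))
        ((frequently_atTop.2 (hx k)).mono fun n hn => hn.le)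
      linarith
  rw [this]
  exact IsGδ.iInter fun k => IsGδ.iInter_of_isOpen fun N =>
    isOpen_biUnion fun n _ => isOpen_lt (h1 n) continuous_const

lemma BB1.comp {f : X → ℝ} (hf : BB1 f) {h : ℝ → ℝ} {K : NNReal} (hh : LipschitzWith K h) :
    BB1 (h ∘ f) := by
  obtain ⟨⟨M, hM⟩, g, h1, h2⟩ := hf
  refine ⟨⟨|h 0| + K * M, fun x => ?_⟩, fun n => h ∘ g n, fun n => hh.continuous.comp (h1 n),
    fun x => (hh.continuous.tendsto _).comp (h2 x)⟩
  have h3 := hh.dist_le_mul (f x) 0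
  rw [Real.dist_eq, Real.dist_eq, sub_zero (f x)] at h3
  have h4 := abs_sub_abs_le_abs_sub (h (f x)) (h 0)
  have h5 : (K : ℝ) * |f x| ≤ K * M := mul_le_mul_of_nonneg_left (hM x) K.2
  simp only [Function.comp]
  linarith

lemma BB1.add {f g : X → ℝ} (hf : BB1 f) (hg : BB1 g) : BB1 (f + g) := by
  obtain ⟨⟨M, hM⟩, u, h1, h2⟩ := hf
  obtain ⟨⟨M', hM'⟩, v, h3, h4⟩ := hg
  refine ⟨⟨M + M', fun x => (abs_add_le _ _).trans (add_le_add (hM x) (hM' x))⟩,
    fun n => u n + v n, fun n => (h1 n).add (h3 n), fun x => (h2 x).add (h4 x)⟩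

lemma aff (a c : ℝ) : LipschitzWith ‖c‖₊ fun t : ℝ => a + c * t := by
  refine LipschitzWith.of_dist_le_mul fun x y => ?_
  rw [Real.dist_eq, Real.dist_eq, show a + c * x - (a + c * y) = c * (x - y) by ring, abs_mul]
  exact le_rfl

lemma gd_ge {f : X → ℝ} (hf : BB1 f) (p : ℝ) : IsGδ {x | p ≤ f x} := by
  have := gd_le (hf.comp (aff 0 (-1))) (-p)
  simpa using this

lemma fs {A : Set X} (h : IsGδ Aᶜ) : ∃ S : ℕ → Set X, (∀ n, IsClosed (S n)) ∧ (∀ n, S n ⊆ A) ∧
    ∀ x ∈ A, ∀ᶠ n in atTop, x ∈ S n := by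
  obtain ⟨U, h1, h2⟩ := h.eq_iInter_nat
  refine ⟨fun n => ⋃ i ∈ Iic n, (U i)ᶜ, fun n =>
    (finite_Iic n).isClosed_biUnion fun i _ => (h1 i).isClosed_compl, fun n x hx => ?_,
    fun x hx => ?_⟩
  · simp only [mem_iUnion] at hx
    obtain ⟨i, -, hi⟩ := hx
    by_contra h3
    exact hi (mem_iInter.1 (h2 ▸ (h3 : x ∈ Aᶜ)) i)
  · have h3 : x ∉ ⋂ n, U n := by rw [← h2]; exact fun h4 => h4 hx
    simp only [mem_iInter, not_forall] at h3
    obtain ⟨i, hi⟩ := h3
    exact (eventually_ge_atTop i).mono fun n hn => mem_biUnion hn hi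

lemma ind_bb [PolishSpace X] {A : Set X} (h1 : IsGδ A) (h2 : IsGδ Aᶜ) :
    BB1 (A.indicator fun _ => (1 : ℝ)) := by
  refine ⟨⟨1, fun x => by by_cases hx : x ∈ A <;> simp [hx]⟩, ?_⟩
  obtain ⟨S, s1, s2, s3⟩ := fs h2
  obtain ⟨T, t1, t2, t3⟩ := fs (A := Aᶜ) (by rwa [compl_compl])
  have h3 : ∀ n, ∃ f : C(X, ℝ), EqOn f 0 (T n) ∧ EqOn f 1 (S n) ∧ ∀ x, f x ∈ Icc (0 : ℝ) 1 :=
    fun n => exists_continuous_zero_one_of_isClosed (t1 n) (s1 n)
      (disjoint_left.2 fun x a b => t2 n a (s2 n b))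
  choose f f1 f2 f3 using h3
  refine ⟨fun n => f n, fun n => (f n).continuous, fun x => tendsto_nhds_of_eventually_eq ?_⟩
  by_cases hx : x ∈ A
  · exact (s3 x hx).mono fun n hn => by simp [hx, f2 n hn]
  · exact (t3 x hx).mono fun n hn => by simp [hx, f1 n hn]

end top

section met
variable {X : Type} [MetricSpace X]

lemma cl {S : ℕ → Set X} {x : X} {ε : ℝ} (h1 : ∀ n, IsClosed (S n ∪ {x}))
    (h2 : ∀ n, S n ⊆ Metric.ball x (ε / ((n : ℝ) + 1))) : IsClosed ((⋃ n, S n) ∪ {x}) := by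
  refine isClosed_of_closure_subset fun z hz => ?_
  by_cases hx : z = x
  · exact Or.inr hx
  have h3 : 0 < dist z x := dist_pos.2 hx
  obtain ⟨N, hN⟩ := eventually_atTop.1 ((tendsto_const_div_atTop_nhds_zero_nat ε).eventually
    (gt_mem_nhds (half_pos h3)))
  have h4 : (⋃ n, S n) ∪ {x} ⊆ (⋃ n ∈ Iic N, (S n ∪ {x})) ∪ Metric.closedBall x (dist z x / 2) := by
    rintro y (hy | hy)
    · obtain ⟨n, hn⟩ := mem_iUnion.1 hy
      by_cases h5 : n ≤ N
      · exact Or.inl (mem_biUnion h5 (Or.inl hn))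
      · have h6 := hN (n + 1) (by omega)
        push_cast at h6
        exact Or.inr (Metric.ball_subset_closedBall (Metric.ball_subset_ball h6.le (h2 n hn)))
    · exact Or.inl (mem_biUnion (le_refl N) (Or.inr hy))
  rcases closure_minimal h4 (((finite_Iic N).isClosed_biUnion fun i _ => h1 i).union
    Metric.isClosed_closedBall) hz with h5 | h5
  · simp only [mem_iUnion] at h5
    obtain ⟨n, -, h6 | h6⟩ := h5
    · exact Or.inl (mem_iUnion.2 ⟨n, h6⟩)
    · exact Or.inr h6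
  · rw [Metric.mem_closedBall] at h5
    linarith

lemma step {B C D : Set X} {η : Ordinal.{0}} (hD : D ⊆ B ∪ C)
    (ih : ∀ x ∈ G B C η, ∀ ε > 0, ∃ K ⊆ B ∪ C, K ⊆ Metric.ball x ε ∧ IsClosed (K ∪ {x}) ∧
      x ∈ G (B ∩ K) (C ∩ K) η) (x : X) (hx : x ∈ closure (G B C η ∩ D)) (ε : ℝ) (hε : 0 < ε) :
    ∃ K ⊆ B ∪ C, K ⊆ Metric.ball x ε ∧ IsClosed (K ∪ {x}) ∧
      x ∈ closure (G (B ∩ K) (C ∩ K) η ∩ (D ∩ K)) := by
  have h1 : ∀ n : ℕ, ∃ y ∈ G B C η ∩ D, dist x y < ε / ((n : ℝ) + 1) / 2 := fun n =>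
    Metric.mem_closure_iff.1 hx _ (by positivity)
  choose y hy hd using h1
  have h2 := fun n : ℕ => ih (y n) (hy n).1 (ε / ((n : ℝ) + 1) / 2) (by positivity)
  choose K k1 k2 k3 k4 using h2
  have h3 : ∀ n, K n ∪ {y n} ⊆ Metric.ball x (ε / ((n : ℝ) + 1)) := by
    rintro n z (hz | rfl)
    · have := k2 n hz
      have h4 := dist_triangle_right z x (y n)
      have := hd n
      rw [Metric.mem_ball] at *
      linarith
    · rw [Metric.mem_ball, dist_comm]
      have : 0 < ε / ((n : ℝ) + 1) := by positivity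
      have := hd n
      linarith
  refine ⟨⋃ n, (K n ∪ {y n}), iUnion_subset fun n => union_subset (k1 n)
    (singleton_subset_iff.2 (hD (hy n).2)), iUnion_subset fun n => (h3 n).trans
    (Metric.ball_subset_ball (div_le_self hε.le (by simp))),
    cl (fun n => (k3 n).union isClosed_singleton) h3, Metric.mem_closure_iff.2 fun δ hδ => ?_⟩
  obtain ⟨n, hn⟩ := ((tendsto_const_div_atTop_nhds_zero_nat ε).eventually
    (gt_mem_nhds hδ) |>.and (eventually_ge_atTop 1)).exists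
  obtain ⟨n, rfl⟩ : ∃ m, n = m + 1 := ⟨n - 1, by omega⟩
  have h5 : K n ⊆ ⋃ n, (K n ∪ {y n}) := subset_union_left.trans (subset_iUnion (fun n => K n ∪ {y n}) n)
  refine ⟨y n, ⟨Gm (inter_subset_inter_right _ h5) (inter_subset_inter_right _ h5) _ (k4 n),
    (hy n).2, mem_iUnion.2 ⟨n, Or.inr rfl⟩⟩, ?_⟩
  have h6 := hn.1
  push_cast at h6
  have : 0 < ε / ((n : ℝ) + 1) := by positivity
  have := hd n
  linarith

lemma wit (B C : Set X) (η : Ordinal.{0}) (hη : η < Ordinal.omega 1) :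
    ∀ x ∈ G B C η, ∀ ε > 0, ∃ K ⊆ B ∪ C, K ⊆ Metric.ball x ε ∧ IsClosed (K ∪ {x}) ∧
      x ∈ G (B ∩ K) (C ∩ K) η := by
  induction η using limitRecOn with
  | zero => intro x _ ε _; exact ⟨∅, by simp, by simp, by simp, by simp [G0]⟩
  | add_one η ih =>
    have ih' := ih (lt_of_le_of_lt le_self_add hη)
    intro x hx ε hε
    by_cases h : 2 ∣ η
    · simp only [Ge _ _ _ h] at hx ⊢
      exact step subset_union_right ih' x hx ε hε
    · simp only [Go _ _ _ h] at hx ⊢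
      exact step subset_union_left ih' x hx ε hε
  | limit η h ih =>
    intro x hx ε hε
    obtain ⟨e, he⟩ := (cnt hη).exists_eq_range ⟨0, h.pos⟩
    have h0 : ∀ n, e n < η := fun n => (he ▸ mem_range_self n : e n ∈ Iio η)
    have h2 := fun n : ℕ => ih (e n) (h0 n) ((h0 n).trans hη) x (Ga B C (h0 n).le hx)
      (ε / ((n : ℝ) + 1)) (by positivity)
    choose K k1 k2 k3 k4 using h2
    refine ⟨⋃ n, K n, iUnion_subset k1, iUnion_subset fun n => (k2 n).trans
      (Metric.ball_subset_ball (div_le_self hε.le (by simp))), cl k3 k2, ?_⟩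
    rw [Gl _ _ _ h]
    refine mem_iInter₂.2 fun θ hθ => ?_
    obtain ⟨n, rfl⟩ : θ ∈ range e := he ▸ hθ
    exact Gm (inter_subset_inter_right _ (subset_iUnion K n))
      (inter_subset_inter_right _ (subset_iUnion K n)) _ (k4 n)

lemma small {K : Set X} {x : X} (h : IsClosed (K ∪ {x})) :
    IsGδ K ∧ IsGδ Kᶜ ∧ G K Kᶜ (2 * 1 + 1 + 1) = ∅ := by
  by_cases hx : x ∈ K
  · rw [union_eq_self_of_subset_right (singleton_subset_iff.2 hx)] at h
    refine ⟨h.isGδ, h.isOpen_compl.isGδ, subset_eq_empty (Gs _ _ _) ?_⟩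
    rw [Ge _ _ _ (dvd_mul_right _ _), closure_empty_iff, show (2 : Ordinal) * 1 = 2 * 0 + 1 + 1 by
      simp [one_add_one_eq_two], Go _ _ _ (odd 0)]
    exact eq_empty_of_forall_notMem fun z hz =>
      hz.2 (closure_minimal inter_subset_right h hz.1)
  · refine ⟨?_, ?_, ?_⟩
    · have : K = (K ∪ {x}) ∩ {x}ᶜ := by
        ext z; by_cases hz : z = x <;> simp [hz, hx]
      rw [this]; exact h.isGδ.inter isOpen_compl_singleton.isGδ
    · have : Kᶜ = (K ∪ {x})ᶜ ∪ {x} := by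
        ext z; by_cases hz : z = x <;> simp [hz, hx]
      rw [this]; exact h.isOpen_compl.isGδ.union isClosed_singleton.isGδ
    · rw [Go _ _ _ (odd 1), Ge _ _ _ (dvd_mul_right _ _), closure_empty_iff,
        show (2 : Ordinal) * 1 = 2 * 0 + 1 + 1 by simp [one_add_one_eq_two], Go _ _ _ (odd 0)]
      refine eq_empty_of_forall_notMem fun z hz => hx ?_
      have h2 : z ∈ ({x} : Set X) := by
        refine closure_minimal (fun w hw => ?_) isClosed_singleton hz.1
        rcases closure_minimal (inter_subset_right.trans subset_union_left) h hw.1 with a | a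
        exacts [absurd a hw.2, a]
      rw [← mem_singleton_iff.1 h2]; exact hz.2

end met

theorem main (X : Type) [TopologicalSpace X] [PolishSpace X] (ρ : (X → ℝ) → Ordinal.{0})
    (P1 : ∀ A : Set X, IsGδ A → IsGδ Aᶜ → Ap (ρ (A.indicator fun _ => 1)) (a1 A Aᶜ))
    (P2 : (∀ f, BB1 f → ∀ c : ℝ, c ≠ 0 → Ap (ρ (c • f)) (ρ f)) ∧
      ∀ f g, BB1 f → BB1 g → Ls (ρ (f + g)) (max (ρ f) (ρ g)))
    (P3 : ∀ (F : ℕ → X → ℝ) f, (∀ n, BB1 (F n)) → BB1 f → TendstoUniformly F f atTop →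
      Ls (ρ f) (⨆ n, ρ (F n)))
    (P4 : ∀ f, BB1 f → ∀ (h : ℝ → ℝ) (K : NNReal), LipschitzWith K h → Ls (ρ (h ∘ f)) (ρ f)) :
    ∀ f, BB1 f → Ap (ρ f) (al f) := by
  intro f hf
  have hdis : ∀ p q : ℝ, p < q → Disjoint {x | f x ≤ p} {x | q ≤ f x} := fun p q h =>
    disjoint_left.2 fun x a b => absurd (le_trans b a) (not_le.2 h)
  have hw : ∀ η : Ordinal.{0}, η < Ordinal.omega 1 → Ordinal.omega0 ^ η < Ordinal.omega 1 :=
    fun η h => isPrincipal_opow_omega 1 omega0_lt_omega_one h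
  have hfin : ∀ η : Ordinal.{0}, 1 ≤ η → 2 * 1 + 1 + 1 ≤ Ordinal.omega0 ^ η := by
    intro η h
    have h1 : Ordinal.omega0 ^ (1 : Ordinal) ≤ Ordinal.omega0 ^ η := opow_le_opow_right omega0_pos h
    rw [opow_one] at h1
    refine le_trans ?_ h1
    have := (Ordinal.natCast_lt_omega0 (2 + 1 + 1)).le
    simpa only [Nat.cast_add, mul_one, Nat.cast_one, Nat.cast_ofNat] using this
  constructor
  · intro η h1 h2 h3
    have hH : ∀ p q : ℚ, p < q → ∃ u : X → ℝ, BB1 u ∧ ρ u ≤ Ordinal.omega0 ^ η ∧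
        (∀ x, u x = 0 ∨ u x = 1) ∧ (∀ x, f x ≤ p → u x = 1) ∧ ∀ x, (q : ℝ) ≤ f x → u x = 0 := by
      intro p q hpq
      have h4 := (Ordinal.iSup_le_iff.1 h3) ⟨(p, q), hpq⟩
      obtain ⟨c1, c2, c3⟩ := GCs (le_a1 (gd_le hf p) (gd_ge hf q) (hdis p q (by exact_mod_cast hpq)) h4)
      obtain ⟨g1, g2⟩ := Td_gd c1 (hw η h2)
      refine ⟨_, ind_bb g1 g2, (P1 _ g1 g2).1 η h1 h2 (csInf_le' ⟨_, c1, subset_rfl,
        disjoint_compl_right⟩), fun x => ?_, fun x hx => indicator_of_mem (c2 hx) _,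
        fun x hx => indicator_of_notMem (disjoint_right.1 c3 hx) _⟩
      by_cases hx : x ∈ Td (Ordinal.omega0 ^ η) (G {x | f x ≤ p} {x | (q : ℝ) ≤ f x})
      · exact Or.inr (indicator_of_mem hx _)
      · exact Or.inl (indicator_of_notMem hx _)
    obtain ⟨M, hM⟩ := hf.1
    obtain ⟨M', hM'⟩ := exists_nat_ge M
    have hst : ∀ e : ℚ, 0 < e → ∀ N : ℕ, ∃ g : X → ℝ, BB1 g ∧ ρ g ≤ Ordinal.omega0 ^ η ∧ ∀ x,
        g x ≤ -M' + N * e ∧ g x ≤ f x + e ∧ (f x - e ≤ g x ∨ -M' + N * e ≤ g x) := by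
      intro e he N
      have he' : (0 : ℝ) < e := by exact_mod_cast he
      induction N with
      | zero =>
        obtain ⟨u, u1, u2, -⟩ := hH 0 1 one_pos
        refine ⟨_, u1.comp (aff (-M') 0), P4 u u1 _ _ (aff (-M') 0) η h1 h2 u2, fun x => ?_⟩
        have := (abs_le.1 (hM x)).1
        simp only [Function.comp, zero_mul, add_zero, Nat.cast_zero]
        exact ⟨le_rfl, by linarith, Or.inr le_rfl⟩
      | succ N ih =>
        obtain ⟨g, g1, g2, g3⟩ := ih
        obtain ⟨u, u1, u2, u3, u4, u5⟩ := hH (-M' + N * e) (-M' + (N + 1) * e) (by linarith)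
        have v1 := u1.comp (aff e (-e))
        refine ⟨_, g1.add v1, P2.2 _ _ g1 v1 η h1 h2 (max_le g2 (P4 u u1 _ _ (aff e (-e)) η h1 h2 u2)),
          fun x => ?_⟩
        obtain ⟨a, b, c⟩ := g3 x
        have d := u4 x
        have d' := u5 x
        push_cast at d d' ⊢
        simp only [Pi.add_apply, Function.comp]
        rcases u3 x with h | h <;> rw [h] at d d' ⊢
        · have : -M' + N * e < f x := not_le.1 fun h' => zero_ne_one (d h')
          refine ⟨by linarith, by linarith, ?_⟩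
          rcases c with c | c
          · left; linarith
          · right; linarith
        · have : f x < -M' + (N + 1) * e := not_le.1 fun h' => one_ne_zero (d' h')
          refine ⟨by linarith, by linarith, Or.inl ?_⟩
          rcases c with c | c <;> linarith
    have h5 := fun n : ℕ => hst (1 / ((n : ℚ) + 1)) (by positivity) (2 * M' * (n + 1))
    choose g g1 g2 g3 using h5
    refine P3 g f g1 hf (Metric.tendstoUniformly_iff.2 fun ε hε => ?_) η h1 h2 (Ordinal.iSup_le g2)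
    refine (tendsto_one_div_add_atTop_nhds_zero_nat.eventually (gt_mem_nhds hε)).mono
      fun n hn x => ?_
    obtain ⟨-, b, c⟩ := g3 n x
    push_cast at b c
    have h6 : (2 * (M' : ℝ) * (n + 1)) * (1 / ((n : ℝ) + 1)) = 2 * M' := by field_simp
    rw [h6] at c
    have := (abs_le.1 (hM x)).2
    rw [Real.dist_eq, abs_lt]
    constructor
    · linarith
    · rcases c with c | c <;> linarith
  · intro η h1 h2 h3
    refine Ordinal.iSup_le fun ⟨⟨p, q⟩, hpq⟩ => a1_le ?_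
    have hpq' : (p : ℝ) < q := by exact_mod_cast hpq
    by_contra hne
    obtain ⟨x, hx⟩ := nonempty_iff_ne_empty.2 hne
    letI := TopologicalSpace.metrizableSpaceMetric X
    obtain ⟨K, k1, -, k3, k4⟩ := wit _ _ _ (hw η h2) x hx 1 one_pos
    obtain ⟨s1, s2, s3⟩ := small k3
    obtain ⟨M, hM⟩ := hf.1
    have r1 := (P1 K s1 s2).1 η h1 h2 ((a1_le s3).trans (hfin η h1))
    have v0 := ind_bb s1 s2
    have v1 := v0.comp (aff 0 (-(q + M)))
    have r2 := P2.2 _ _ hf v1 η h1 h2 (max_le h3 (P4 _ v0 _ _ (aff 0 (-(q + M))) η h1 h2 r1))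
    have lp := ((aff (-M / (q - p)) (-1 / (q - p))).const_min 1).const_max 0
    have r3 := P4 _ (hf.add v1) _ _ lp η h1 h2 r2
    have hA : IsGδ ({x | f x ≤ p} ∩ K) := (gd_le hf p).inter s1
    have hA' : IsGδ ({x | f x ≤ p} ∩ K)ᶜ := by
      have : ({x | f x ≤ p} ∩ K)ᶜ = Kᶜ ∪ {x | (q : ℝ) ≤ f x} := by
        ext z
        constructor
        · intro hz
          by_cases h : z ∈ K
          · exact Or.inr ((k1 h).resolve_left fun h' => hz ⟨h', h⟩)
          · exact Or.inl h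
        · rintro (h | h) hz
          exacts [h hz.2, disjoint_left.1 (hdis _ _ hpq') hz.1 h]
      rw [this]; exact s2.union (gd_ge hf q)
    have hd : 0 < (q : ℝ) - p := sub_pos.2 hpq'
    have e : ((fun t : ℝ => max 0 (min 1 (-M / (q - p) + -1 / (q - p) * t))) ∘
        (f + (fun t : ℝ => 0 + -(q + M) * t) ∘ K.indicator fun _ => (1 : ℝ))) =
        ({x | f x ≤ p} ∩ K).indicator fun _ => (1 : ℝ) := by
      funext z
      simp only [Function.comp, Pi.add_apply]
      rw [show ∀ t : ℝ, -M / (q - p) + -1 / (q - p) * t = (-M - t) / (q - p) from fun t => by ring]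
      by_cases h : z ∈ K
      · rw [indicator_of_mem h]
        rcases k1 h with h' | h'
        · rw [indicator_of_mem (show z ∈ {x | f x ≤ p} ∩ K from ⟨h', h⟩), min_eq_left, max_eq_right zero_le_one]
          rw [one_le_div hd]
          have : f z ≤ p := h'
          linarith
        · rw [indicator_of_notMem fun h4 => disjoint_left.1 (hdis _ _ hpq') h4.1 h', max_eq_left]
          refine min_le_of_right_le (div_nonpos_of_nonpos_of_nonneg ?_ hd.le)
          have : (q : ℝ) ≤ f z := h'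
          linarith
      · rw [indicator_of_notMem h, indicator_of_notMem fun h4 => h h4.2, max_eq_left]
        refine min_le_of_right_le (div_nonpos_of_nonpos_of_nonneg ?_ hd.le)
        have := (abs_le.1 (hM z)).1
        linarith
    rw [e] at r3
    have h7 := le_a1 hA hA' disjoint_compl_right ((P1 _ hA hA').2 η h1 h2 r3)
    have h8 := Gm subset_rfl (show {x | (q : ℝ) ≤ f x} ∩ K ⊆ ({x | f x ≤ p} ∩ K)ᶜ from
      fun z hz h4 => disjoint_left.1 (hdis _ _ hpq') h4.1 hz.1) _ k4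
    rw [h7] at h8
    exact h8

end Pool.Agent.H.MP_12cd8a_lc
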